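import Pool.Agent.Helper47.FLG.Alg2

namespace Pool.Agent.Helper47.FLG

open Finset Pool.Agent.Helper47.RFn

theorem SA2_aux {ι : Type} [Fintype ι] [DecidableEq ι] {n : ℕ} (hc : Fintype.card ι = n)
    (e : ι → Fin n → ℝ) (he : ∀ a b, dot (e a) (e b) = if a = b then 1 else 0) :
    ∀ i j, ∑ a, e a i * e a j = if i = j then (1 : ℝ) else 0 := by
  have h1 : (Matrix.of e) * (Matrix.of e).transpose = 1 := by
    ext a b
    rw [Matrix.mul_apply, Matrix.one_apply]
    exact he a b
  have h2 : (Matrix.of e).transpose * (Matrix.of e) = 1 := by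
    exact (Matrix.mul_eq_one_comm_of_card_eq ι (Fin n) ℝ (by simpa using hc)).1 h1
  intro i j
  have h3 := congrFun (congrFun h2 i) j
  rw [Matrix.mul_apply, Matrix.one_apply] at h3
  exact h3

theorem g_SA2 (hR4T : G_R4T) (_hLN : RFn.Goal_LN) : G_SA2 := by
  intro n k l z X Y hn hz hX hY hXz hYz hXY S hS
  obtain ⟨-, -, hsym, hK2, hK2s, -, -, -, hnd, -, hexp, -, hric⟩ := hR4T n
  have dcomm : ∀ u v : Fin n → ℝ, dot u v = dot v u := by
    intro u v
    unfold dot
    exact Finset.sum_congr rfl fun i _ => mul_comm _ _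
  -- the basis
  set e : Unit ⊕ (Fin k ⊕ Fin l) → Fin n → ℝ := Sum.elim (fun _ => z) (Sum.elim X Y) with hedef
  have he : ∀ a b, dot (e a) (e b) = if a = b then 1 else 0 := by
    intro a b
    rcases a with a | a | a <;> rcases b with b | b | b
    · have : dot z z = 1 := by rw [← hnd, hz]
      simpa [hedef] using this
    · simpa [hedef] using (dcomm _ _).trans (hXz b)
    · simpa [hedef] using (dcomm _ _).trans (hYz b)
    · simpa [hedef] using hXz a
    · simpa [hedef] using hX a b
    · simpa [hedef] using hXY a b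
    · simpa [hedef] using hYz a
    · simpa [hedef] using (dcomm _ _).trans (hXY b a)
    · simpa [hedef] using hY a b
  have hcard : Fintype.card (Unit ⊕ (Fin k ⊕ Fin l)) = n := by
    simp
    omega
  have hδ := SA2_aux hcard e he
  have hsplit : ∀ f : Unit ⊕ (Fin k ⊕ Fin l) → ℝ,
      ∑ a, f a = f (Sum.inl ()) + ∑ i, f (Sum.inr (Sum.inl i)) + ∑ j, f (Sum.inr (Sum.inr j)) := by
    intro f
    rw [Fintype.sum_sum_type, Fintype.sum_sum_type]
    simp [add_assoc]
  have h2 : ∀ v : Fin n → ℝ, nrm v = dot v z ^ 2 + ∑ i, dot v (X i) ^ 2 + ∑ j, dot v (Y j) ^ 2 := by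
    intro v
    have h := hsplit (fun a => dot v (e a) ^ 2)
    simp only [hedef, Sum.elim_inl, Sum.elim_inr] at h
    rw [← h]
    have : ∀ a, dot v (Sum.elim (fun _ => z) (Sum.elim X Y) a) ^ 2
        = ∑ i, ∑ j, v i * v j * (e a i * e a j) := by
      intro a
      unfold dot
      rw [sq, Finset.sum_mul_sum]
      refine Finset.sum_congr rfl fun i _ => Finset.sum_congr rfl fun j _ => ?_
      simp only [hedef]
      ring
    rw [Finset.sum_congr rfl fun a _ => this a, Finset.sum_comm]
    unfold nrm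
    refine Finset.sum_congr rfl fun i _ => ?_
    rw [Finset.sum_comm]
    simp only [← Finset.mul_sum, hδ]
    simp [sq]
  have h3 : ∀ u v : Fin n → ℝ, (∑ c, R4 S u (sb c) v (sb c)) = R4 S u z v z
      + ∑ i, R4 S u (X i) v (X i) + ∑ j, R4 S u (Y j) v (Y j) := by
    intro u v
    have h := hsplit (fun a => R4 S u (e a) v (e a))
    simp only [hedef, Sum.elim_inl, Sum.elim_inr] at h
    rw [← h]
    have : ∀ a, R4 S u (Sum.elim (fun _ => z) (Sum.elim X Y) a) v (Sum.elim (fun _ => z) (Sum.elim X Y) a)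
        = ∑ i, ∑ j, R4 S u (sb i) v (sb j) * (e a i * e a j) := by
      intro a
      rw [(hexp S u _ v _).2.1]
      refine Finset.sum_congr rfl fun i _ => ?_
      rw [(hexp S u _ v _).2.2.2, Finset.mul_sum]
      refine Finset.sum_congr rfl fun j _ => ?_
      simp only [hedef]
      ring
    rw [Finset.sum_congr rfl fun a _ => this a, Finset.sum_comm]
    refine Finset.sum_congr rfl fun i _ => ?_
    rw [Finset.sum_comm]
    simp only [← Finset.mul_sum, hδ]
    simp
  refine ⟨?_, h2, h3⟩
  have hzz : R4 S z z z z = 0 := by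
    have := (hsym S hS z z z z).1
    linarith
  have hR : rq (Ric S) z = ∑ i, K2 S z (X i) + ∑ j, K2 S z (Y j) := by
    rw [hric, h3 z z, hzz]
    simp only [hK2, zero_add]
  have e1 : ∀ i, K2 S (X i) z = K2 S z (X i) := fun i => hK2s S hS _ _
  have e2 : ∀ j, K2 S (Y j) z = K2 S z (Y j) := fun j => hK2s S hS _ _
  unfold elk
  rw [hR]
  simp only [e1, e2, Finset.sum_sub_distrib, Finset.sum_const, Finset.card_univ, Fintype.card_fin,
    nsmul_eq_mul, ← Finset.mul_sum]
  have hn' : (n : ℝ) = 1 + k + l := by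
    rw [← hn]; push_cast; ring
  rw [hn']
  ring

end Pool.Agent.Helper47.FLG
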